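import Pool.Agent.Y740.Z.Stm

set_option autoImplicit false

/-!
# The degree of a point of a curve which satisfies a relation (project ZF)
-/

namespace Pool.Agent.Y44.ZF

open Polynomial Pool.Agent.Y740.Z Module IntermediateField

/-! ### the degree of a compositum -/

lemma finrank_adjoin_finset {F E : Type} [Field F] [Field E] [Algebra F E]
    [Algebra.IsAlgebraic F E] {ι : Type} [DecidableEq ι] (x : ι → E) (d : ι → ℕ)
    (hd : ∀ i, (minpoly F (x i)).natDegree ≤ d i) (T : Finset ι) :
    finrank F (IntermediateField.adjoin F (x '' T)) ≤ ∏ i ∈ T, d i := by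
  classical
  induction T using Finset.induction_on with
  | empty =>
    rw [Finset.coe_empty, Set.image_empty, IntermediateField.adjoin_empty,
      IntermediateField.finrank_bot, Finset.prod_empty]
  | insert a T ha ih =>
    rw [Finset.prod_insert ha, Finset.coe_insert, Set.image_insert_eq, Set.insert_eq,
      IntermediateField.adjoin_union]
    refine (IntermediateField.finrank_sup_le _ _).trans (Nat.mul_le_mul ?_ ih)
    rw [IntermediateField.adjoin.finrank (Algebra.IsIntegral.isIntegral (x a))]
    exact hd a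

/-- the degree of an algebraic element is at most the number of its images -/
lemma natDegree_le_card {F E : Type} [Field F] [Field E] [Algebra F E] [CharZero F]
    [IsAlgClosed E] [Algebra.IsAlgebraic F E] (s : E) (Z : Finset E)
    (h : ∀ σ : E ≃ₐ[F] E, σ s ∈ Z) : (minpoly F s).natDegree ≤ Z.card := by
  classical
  have hint : IsIntegral F s := Algebra.IsIntegral.isIntegral s
  have hsep : (minpoly F s).Separable := (minpoly.irreducible hint).separable
  have : Normal F E := normal_iff.2 fun y =>
    ⟨Algebra.IsIntegral.isIntegral y, IsAlgClosed.splits _⟩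
  rw [← Polynomial.card_rootSet_eq_natDegree (K := E) hsep (IsAlgClosed.splits _),
    ← Set.toFinset_card]
  refine Finset.card_le_card fun y hy => ?_
  rw [Set.mem_toFinset, Polynomial.mem_rootSet] at hy
  obtain ⟨σ, hσ⟩ := minpoly.exists_algEquiv_of_root' (Algebra.IsAlgebraic.isAlgebraic s) hy.2
  rw [← hσ]
  exact h σ

/-! ### the statement -/

/-- the value of a polynomial whose coefficients are fixed -/
lemma sig_eval {E : Type} [Field E] (σ : E ≃+* E) (P : E[X]) (hP : ∀ j, σ (P.coeff j) = P.coeff j)
    (s : E) : σ (P.eval s) = P.eval (σ s) := by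
  rw [Polynomial.eval_eq_sum_range, Polynomial.eval_eq_sum_range, map_sum]
  refine Finset.sum_congr rfl fun j _ => ?_
  rw [map_mul, map_pow, hP]

lemma ev_eq {E : Type} [Field E] (A : E[X][X]) (s y : E) :
    ev A s y = ∑ i ∈ Finset.range (A.natDegree + 1), (A.coeff i).eval s * y ^ i := by
  unfold ev
  rw [Polynomial.eval₂_eq_sum_range]
  refine Finset.sum_congr rfl fun i _ => ?_
  congr 1

lemma sig_ev {E : Type} [Field E] (σ : E ≃+* E) (A : E[X][X])
    (hA : ∀ i j, σ ((A.coeff i).coeff j) = (A.coeff i).coeff j) (s y : E) :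
    σ (ev A s y) = ev A (σ s) (σ y) := by
  rw [ev_eq, ev_eq, map_sum]
  refine Finset.sum_congr rfl fun i _ => ?_
  rw [map_mul, map_pow, sig_eval σ _ (hA i)]

/-- the degree of a root -/
lemma natDegree_minpoly_le {K E : Type} [Field K] [Field E] [Algebra K E]
    (F : IntermediateField K E) (A : E[X][X]) (s y : E)
    (hs : s ∈ F) (hA : ∀ i j, (A.coeff i).coeff j ∈ F) (hl : A.leadingCoeff.eval s ≠ 0)
    (hy : ev A s y = 0) : (minpoly F y).natDegree ≤ A.natDegree := by
  classical
  have hc : ∀ i, (A.coeff i).eval s ∈ F := fun i => by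
    rw [Polynomial.eval_eq_sum_range]
    exact sum_mem fun j _ => mul_mem (hA i j) (pow_mem hs j)
  let p : F[X] := ∑ i ∈ Finset.range (A.natDegree + 1), C (⟨(A.coeff i).eval s, hc i⟩ : F) * X ^ i
  have hcoeff : ∀ i, p.coeff i = if i < A.natDegree + 1 then ⟨(A.coeff i).eval s, hc i⟩ else 0 := by
    intro i
    simp only [p, Polynomial.finsetSum_coeff, Polynomial.coeff_C_mul, Polynomial.coeff_X_pow,
      mul_ite, mul_one, mul_zero]
    rw [Finset.sum_ite_eq]
    simp only [Finset.mem_range]
  have hp0 : p ≠ 0 := by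
    intro h
    have h1 := hcoeff A.natDegree
    rw [h, Polynomial.coeff_zero, if_pos (Nat.lt_succ_self _)] at h1
    exact hl (congrArg Subtype.val h1).symm
  have hpd : p.natDegree ≤ A.natDegree := by
    refine Polynomial.natDegree_le_iff_coeff_eq_zero.2 fun i hi => ?_
    rw [hcoeff i, if_neg (by omega)]
  have hpy : aeval y p = 0 := by
    rw [← hy, ev_eq]
    simp only [p, map_sum, map_mul, Polynomial.aeval_C, map_pow, Polynomial.aeval_X]
    rfl
  exact (Polynomial.natDegree_le_natDegree (minpoly.degree_le_of_ne_zero F y hp0 hpy)).trans hpd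

lemma algQ : Algebra.IsAlgebraic ℚ (AlgebraicClosure ℚ) := by
  have h := AlgebraicClosure.isAlgebraic ℚ
  have e : (DivisionRing.toRatAlgebra : Algebra ℚ (AlgebraicClosure ℚ)) =
      AlgebraicClosure.instAlgebra ℚ := Subsingleton.elim _ _
  rw [e]
  exact h

/-- The degree of a point of a curve which satisfies a relation. -/
theorem t_CONJ : S_CONJ := by
  intro n A h0 U S C hfew
  classical
  have hQ : Algebra.IsAlgebraic ℚ (AlgebraicClosure ℚ) := algQ
  -- the field of coefficients
  let cs : Finset (AlgebraicClosure ℚ) := Finset.univ.biUnion fun l : Fin n =>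
    (Finset.range ((A l).natDegree + 1)).biUnion fun i =>
      ((A l).coeff i).support.image fun j => ((A l).coeff i).coeff j
  let K0 := IntermediateField.adjoin ℚ (cs : Set (AlgebraicClosure ℚ))
  have hK0 : ∀ l i j, ((A l).coeff i).coeff j ∈ K0 := by
    intro l i j
    by_cases h : ((A l).coeff i).coeff j = 0
    · rw [h]
      exact zero_mem _
    · apply IntermediateField.subset_adjoin
      have hi : (A l).coeff i ≠ 0 := by
        intro h1
        apply h
        rw [h1, Polynomial.coeff_zero]
      have hi2 : i < (A l).natDegree + 1 :=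
        Nat.lt_succ_of_le (Polynomial.le_natDegree_of_ne_zero hi)
      simp only [cs, Finset.coe_biUnion, Set.mem_iUnion, Finset.mem_coe, Finset.mem_image,
        Finset.mem_univ, Finset.mem_range, Polynomial.mem_support_iff]
      exact ⟨l, trivial, i, hi2, j, h, rfl⟩
  have hfd : FiniteDimensional ℚ K0 :=
    IntermediateField.finiteDimensional_adjoin fun x _ => Algebra.IsIntegral.isIntegral x
  have halg : Algebra.IsAlgebraic K0 (AlgebraicClosure ℚ) :=
    Algebra.IsAlgebraic.tower_top (K := ℚ) K0
  let S0 : Finset (AlgebraicClosure ℚ) :=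
    S ∪ Finset.univ.biUnion fun l => (A l).leadingCoeff.roots.toFinset
  refine ⟨finrank ℚ K0 * C * ∏ l, (A l).natDegree,
    S0.biUnion fun t => ((minpoly ℚ t).aroots (AlgebraicClosure ℚ)).toFinset, ?_⟩
  intro s hs x hx b hb hxb
  by_cases hU : ∃ u ∈ U, ∏ l, x l ^ u l = 1
  · exact Or.inl hU
  right
  have hsig : ∀ σ : AlgebraicClosure ℚ ≃ₐ[K0] AlgebraicClosure ℚ, σ s ∉ S0 := by
    intro σ hσ
    apply hs
    rw [Finset.mem_biUnion]
    refine ⟨σ s, hσ, ?_⟩
    have hne : minpoly ℚ (σ s) ≠ 0 := minpoly.ne_zero (Algebra.IsIntegral.isIntegral _)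
    rw [Multiset.mem_toFinset, Polynomial.mem_aroots]
    refine ⟨hne, ?_⟩
    have h1 : aeval (σ s) (minpoly ℚ (σ s)) = 0 := minpoly.aeval _ _
    have h2 : (σ.restrictScalars ℚ) (aeval s (minpoly ℚ (σ s))) = 0 := by
      rw [← Polynomial.aeval_algHom_apply]
      exact h1
    exact (map_eq_zero_iff _ (σ.restrictScalars ℚ).injective).1 h2
  obtain ⟨Z, hZ, hZ2⟩ := hfew b hb
  have key : ∀ σ : AlgebraicClosure ℚ ≃ₐ[K0] AlgebraicClosure ℚ, σ s ∈ Z := by
    intro σ
    have hfix : ∀ l i j, σ.toRingEquiv (((A l).coeff i).coeff j) = ((A l).coeff i).coeff j :=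
      fun l i j => σ.commutes ⟨_, hK0 l i j⟩
    have hprod : ∀ w : Fin n → ℤ, ∏ l, σ (x l) ^ w l = σ (∏ l, x l ^ w l) := fun w => by
      rw [map_prod]
      exact Finset.prod_congr rfl fun l _ => (map_zpow₀ σ _ _).symm
    have hev : ∀ l, ev (A l) (σ s) (σ (x l)) = 0 := fun l => by
      have h1 := sig_ev σ.toRingEquiv (A l) (hfix l) s (x l)
      rw [hx l, map_zero] at h1
      exact h1.symm
    rcases hZ2 (σ s) (fun h => hsig σ (Finset.mem_union_left _ h)) (fun l => σ (x l))
      hev (by rw [hprod, hxb, map_one]) with h | h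
    · exfalso
      obtain ⟨u, hu, hu1⟩ := h
      rw [hprod] at hu1
      exact hU ⟨u, hu, σ.injective (by rw [hu1, map_one])⟩
    · exact h
  have hdeg := (natDegree_le_card s Z key).trans hZ
  let F := K0⟮s⟯
  have halgF : Algebra.IsAlgebraic F (AlgebraicClosure ℚ) :=
    Algebra.IsAlgebraic.tower_top (K := K0) F
  have hF : finrank K0 F = (minpoly K0 s).natDegree :=
    IntermediateField.adjoin.finrank (Algebra.IsIntegral.isIntegral s)
  have hFfd : FiniteDimensional K0 F :=
    IntermediateField.adjoin.finiteDimensional (Algebra.IsIntegral.isIntegral s)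
  have hlc : ∀ l, (A l).leadingCoeff.eval s ≠ 0 := by
    intro l h
    refine hsig AlgEquiv.refl (Finset.mem_union_right _ (Finset.mem_biUnion.2
      ⟨l, Finset.mem_univ _, ?_⟩))
    rw [Multiset.mem_toFinset, Polynomial.mem_roots]
    · exact h
    · refine Polynomial.leadingCoeff_ne_zero.2 fun h1 => h0 l ?_
      rw [h1, Polynomial.coeff_zero]
  have hE := finrank_adjoin_finset (F := F) x (fun l => (A l).natDegree) (fun l =>
    natDegree_minpoly_le F (A l) s (x l) (IntermediateField.mem_adjoin_simple_self K0 s)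
      (fun i j => F.algebraMap_mem ⟨_, hK0 l i j⟩) (hlc l) (hx l)) Finset.univ
  rw [Finset.coe_univ, Set.image_univ] at hE
  let E2 := IntermediateField.adjoin F (Set.range x)
  have hE2fd : FiniteDimensional F E2 :=
    IntermediateField.finiteDimensional_adjoin fun x _ => Algebra.IsIntegral.isIntegral x
  have e1 : finrank ℚ K0 * finrank K0 F = finrank ℚ F := Module.finrank_mul_finrank ℚ K0 F
  have e2 : finrank ℚ F * finrank F E2 = finrank ℚ E2 := Module.finrank_mul_finrank ℚ F E2
  have : FiniteDimensional ℚ F := Module.Finite.trans K0 F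
  have : FiniteDimensional ℚ E2 := Module.Finite.trans F E2
  have hle : finrank ℚ (IntermediateField.adjoin ℚ (insert s (Set.range x))) ≤ finrank ℚ E2 := by
    have hsub : IntermediateField.adjoin ℚ (insert s (Set.range x)) ≤ E2.restrictScalars ℚ := by
      rw [IntermediateField.adjoin_le_iff]
      intro y hy
      rcases hy with rfl | hy
      · exact E2.algebraMap_mem ⟨y, IntermediateField.mem_adjoin_simple_self K0 y⟩
      · exact IntermediateField.subset_adjoin F _ hy
    have : FiniteDimensional ℚ (E2.restrictScalars ℚ) := ‹FiniteDimensional ℚ E2›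
    exact Submodule.finrank_mono (s := (IntermediateField.adjoin ℚ
      (insert s (Set.range x))).toSubalgebra.toSubmodule)
      (t := (E2.restrictScalars ℚ).toSubalgebra.toSubmodule) hsub
  calc _ ≤ finrank ℚ E2 := hle
    _ = finrank ℚ K0 * finrank K0 F * finrank F E2 := by rw [← e2, ← e1]
    _ ≤ finrank ℚ K0 * (C * ∑ l, (b l).natAbs) * ∏ l, (A l).natDegree :=
        Nat.mul_le_mul (Nat.mul_le_mul le_rfl (by rw [hF]; exact hdeg)) hE
    _ = (finrank ℚ K0 * C * ∏ l, (A l).natDegree) * ∑ l, (b l).natAbs := by ring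

end Pool.Agent.Y44.ZF
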