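import Pool.Agent.Y740.Z.Stm

set_option autoImplicit false

/-!
# Relations on a curve (project ZF)
-/

namespace Pool.Agent.Y44.ZF

open Polynomial Pool.Agent.Y740.Z

variable {k : Type} [Field k]

lemma inj : Function.Injective (algebraMap k[X] (Alg k)) := by
  rw [IsScalarTower.algebraMap_eq k[X] (RatFunc k) (Alg k)]
  exact (algebraMap (RatFunc k) (Alg k)).injective.comp (IsFractionRing.injective k[X] (RatFunc k))

open Classical in
/-- the roots -/
noncomputable def R (A : k[X][X]) : Finset (Alg k) :=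
  (A.map (algebraMap k[X] (Alg k))).roots.toFinset

lemma mem_R {A : k[X][X]} (hA : A ≠ 0) (η : Alg k) : η ∈ R A ↔ IsRt A η := by
  classical
  unfold R IsRt
  rw [Multiset.mem_toFinset, Polynomial.mem_roots ((Polynomial.map_ne_zero_iff inj).2 hA),
    Polynomial.IsRoot.def, Polynomial.eval_map]

/-- there is a relation -/
def Bad {ι : Type} [Fintype ι] {W : Type} [Field W] (η : ι → W) : Prop :=
  ∃ w : ι → ℤ, w ≠ 0 ∧ ∏ l, η l ^ w l = 1

open Classical in
/-- a relation -/
noncomputable def uu {ι : Type} [Fintype ι] {W : Type} [Field W] (η : ι → W) : ι → ℤ :=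
  if h : Bad η then h.choose else 0

lemma uu_spec {ι : Type} [Fintype ι] {W : Type} [Field W] {η : ι → W} (h : Bad η) :
    uu η ≠ 0 ∧ ∏ l, η l ^ uu η l = 1 := by
  unfold uu
  rw [dif_pos h]
  exact h.choose_spec

lemma bad_map {ι : Type} [Fintype ι] {W : Type} [Field W] (σ : W ≃+* W) (η : ι → W) :
    Bad (fun l => σ (η l)) ↔ Bad η := by
  unfold Bad
  refine exists_congr fun w => and_congr_right fun _ => ?_
  have h : ∏ l, σ (η l) ^ w l = σ (∏ l, η l ^ w l) := by
    rw [map_prod]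
    exact Finset.prod_congr rfl fun l _ => (map_zpow₀ σ _ _).symm
  rw [h]
  constructor
  · intro h1
    exact σ.injective (by rw [h1, map_one])
  · intro h1
    rw [h1, map_one]

/-- `Q ^ |b| * y ^ b` is integral -/
lemma int_zpow {W : Type} [Field W] [Algebra k[X] W] (q y : W)
    (h1 : IsIntegral k[X] (q * y)) (h2 : IsIntegral k[X] (q * y⁻¹)) (b : ℤ) :
    IsIntegral k[X] (q ^ b.natAbs * y ^ b) := by
  rcases Int.natAbs_eq b with h | h
  · have e : q ^ b.natAbs * y ^ b = (q * y) ^ b.natAbs := by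
      rw [mul_pow]
      congr 1
      conv_lhs => rw [h]
      rw [zpow_natCast]
    rw [e]
    exact h1.pow _
  · have e : q ^ b.natAbs * y ^ b = (q * y⁻¹) ^ b.natAbs := by
      rw [mul_pow]
      congr 1
      conv_lhs => rw [h]
      rw [zpow_neg, zpow_natCast, inv_pow]
    rw [e]
    exact h2.pow _

lemma lead_int {A : k[X][X]} {η : Alg k} (h : IsRt A η) :
    IsIntegral k[X] (algebraMap k[X] (Alg k) A.leadingCoeff * η) := by
  have h1 := isIntegral_leadingCoeff_smul A η (by rw [Polynomial.aeval_def]; exact h)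
  rwa [Algebra.smul_def] at h1

lemma const_int {A : k[X][X]} {η : Alg k} (h0 : A.coeff 0 ≠ 0) (hη : η ≠ 0) (h : IsRt A η) :
    IsIntegral k[X] (algebraMap k[X] (Alg k) (A.coeff 0) * η⁻¹) := by
  have h2 : A.reverse.eval₂ (algebraMap k[X] (Alg k)) η⁻¹ = 0 := by
    have : Invertible η := invertibleOfNonzero hη
    have h3 := (Polynomial.eval₂_reverse_eq_zero_iff (algebraMap k[X] (Alg k)) η A).2 h
    rwa [invOf_eq_inv] at h3
  have h1 := isIntegral_leadingCoeff_smul A.reverse η⁻¹ (by rw [Polynomial.aeval_def]; exact h2)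
  rw [Polynomial.reverse_leadingCoeff] at h1
  have h4 : A.trailingCoeff = A.coeff 0 := by
    unfold Polynomial.trailingCoeff
    rw [Polynomial.natTrailingDegree_eq_zero_of_constantCoeff_ne_zero]
    simpa using h0
  rwa [h4, Algebra.smul_def] at h1

/-! ### valuations -/

section val

variable {W : Type} [Field W] (V : ValuationSubring W)

lemma val_zpow_le {x : V.ValueGroup} {c : ℕ} {y : W}
    (h1 : V.valuation y ≤ x ^ c) (h2 : V.valuation y⁻¹ ≤ x ^ c) (b : ℤ) :
    V.valuation (y ^ b) ≤ x ^ (c * b.natAbs) := by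
  rcases Int.natAbs_eq b with h | h
  · have e : y ^ b = y ^ b.natAbs := by
      conv_lhs => rw [h]
      rw [zpow_natCast]
    rw [e, map_pow, pow_mul]
    exact pow_le_pow_left' h1 _
  · have e : y ^ b = (y⁻¹) ^ b.natAbs := by
      conv_lhs => rw [h]
      rw [zpow_neg, zpow_natCast, inv_pow]
    rw [e, map_pow, pow_mul]
    exact pow_le_pow_left' h2 _

lemma val_prod_le {ι : Type} [Fintype ι] {x : V.ValueGroup} {c : ℕ} {y : ι → W}
    (h1 : ∀ l, V.valuation (y l) ≤ x ^ c) (h2 : ∀ l, V.valuation (y l)⁻¹ ≤ x ^ c) (b : ι → ℤ) :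
    V.valuation (∏ l, y l ^ b l) ≤ x ^ (c * ∑ l, (b l).natAbs) := by
  rw [map_prod, Finset.mul_sum, ← Finset.prod_pow_eq_pow_sum]
  exact Finset.prod_le_prod' fun l _ => val_zpow_le V (h1 l) (h2 l) (b l)

lemma val_prod_one {ι : Type} [Fintype ι] {y : ι → W}
    (h1 : ∀ l, V.valuation (y l) = 1) (b : ι → ℤ) :
    V.valuation (∏ l, y l ^ b l) = 1 := by
  rw [map_prod]
  exact Finset.prod_eq_one fun l _ => by rw [map_zpow₀, h1 l, one_zpow]

end val

/-! ### the main construction -/

section main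

variable {ι : Type} [Fintype ι] [DecidableEq ι] (A : ι → k[X][X])

open Classical in
/-- the tuples of roots without relations -/
noncomputable def G : Finset (ι → Alg k) :=
  (Fintype.piFinset fun l => R (A l)).filter fun η => ¬ Bad η

open Classical in
/-- relations between the roots -/
noncomputable def U : Finset (ι → ℤ) :=
  ((Fintype.piFinset fun l => R (A l)).filter fun η => Bad η).image uu

/-- the bad polynomial -/
noncomputable def Q : k[X] := ∏ l, ((A l).leadingCoeff * (A l).coeff 0)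

variable {A}

omit [Fintype ι] [DecidableEq ι] in
lemma A_ne (h0 : ∀ l, (A l).coeff 0 ≠ 0) (l : ι) : A l ≠ 0 := by
  intro h
  apply h0 l
  rw [h, Polynomial.coeff_zero]

omit [DecidableEq ι] in
lemma Q_ne (h0 : ∀ l, (A l).coeff 0 ≠ 0) : Q A ≠ 0 :=
  Finset.prod_ne_zero_iff.2 fun l _ =>
    mul_ne_zero (Polynomial.leadingCoeff_ne_zero.2 (A_ne h0 l)) (h0 l)

lemma mem_G (h0 : ∀ l, (A l).coeff 0 ≠ 0) (η : ι → Alg k) :
    η ∈ G A ↔ (∀ l, IsRt (A l) (η l)) ∧ ¬ Bad η := by
  classical
  unfold G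
  rw [Finset.mem_filter, Fintype.mem_piFinset]
  refine and_congr_left fun _ => forall_congr' fun l => mem_R (A_ne h0 l) _

lemma mem_U (h0 : ∀ l, (A l).coeff 0 ≠ 0) {η : ι → Alg k} (h1 : ∀ l, IsRt (A l) (η l))
    (h2 : Bad η) : uu η ∈ U A := by
  classical
  unfold U
  refine Finset.mem_image_of_mem _ (Finset.mem_filter.2 ⟨Fintype.mem_piFinset.2 fun l => ?_, h2⟩)
  exact (mem_R (A_ne h0 l) _).2 (h1 l)

lemma U_ne : ∀ u ∈ U A, u ≠ 0 := by
  classical
  intro u hu
  unfold U at hu
  obtain ⟨η, hη, rfl⟩ := Finset.mem_image.1 hu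
  exact (uu_spec (Finset.mem_filter.1 hη).2).1

variable (A) in
/-- the invariant function -/
noncomputable def th (b : ι → ℤ) : Alg k :=
  ∏ η ∈ G A, (algebraMap k[X] (Alg k) (Q A) ^ (∑ l, (b l).natAbs) * (∏ l, η l ^ b l - 1))

lemma th_ne (h0 : ∀ l, (A l).coeff 0 ≠ 0) {b : ι → ℤ} (hb : b ≠ 0) : th A b ≠ 0 := by
  unfold th
  refine Finset.prod_ne_zero_iff.2 fun η hη => mul_ne_zero (pow_ne_zero _ ?_) ?_
  · rw [Ne, ← map_zero (algebraMap k[X] (Alg k)), inj.eq_iff]
    exact Q_ne h0
  · intro h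
    exact ((mem_G h0 η).1 hη).2 ⟨b, hb, sub_eq_zero.1 h⟩

lemma sig_alg (σ : Alg k ≃ₐ[RatFunc k] Alg k) (P : k[X]) :
    σ (algebraMap k[X] (Alg k) P) = algebraMap k[X] (Alg k) P := by
  rw [IsScalarTower.algebraMap_apply k[X] (RatFunc k) (Alg k), σ.commutes]

lemma sig_rt (σ : Alg k ≃ₐ[RatFunc k] Alg k) {B : k[X][X]} {η : Alg k} (h : IsRt B η) :
    IsRt B (σ η) := by
  unfold IsRt at h ⊢
  have h1 := congrArg (σ : Alg k →+* Alg k) h
  rw [Polynomial.hom_eval₂, map_zero] at h1
  have h2 : ((σ : Alg k →+* Alg k)).comp (algebraMap k[X] (Alg k)) = algebraMap k[X] (Alg k) :=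
    RingHom.ext fun P => sig_alg σ P
  rw [h2] at h1
  exact h1

lemma sig_G (h0 : ∀ l, (A l).coeff 0 ≠ 0) (σ : Alg k ≃ₐ[RatFunc k] Alg k) {η : ι → Alg k}
    (h : η ∈ G A) : (fun l => σ (η l)) ∈ G A := by
  rw [mem_G h0] at h ⊢
  refine ⟨fun l => sig_rt σ (h.1 l), ?_⟩
  intro hbad
  exact h.2 ((bad_map σ.toRingEquiv η).1 hbad)

lemma th_fix (h0 : ∀ l, (A l).coeff 0 ≠ 0) (b : ι → ℤ) (σ : Alg k ≃ₐ[RatFunc k] Alg k) :
    σ (th A b) = th A b := by
  unfold th
  rw [map_prod]
  refine Finset.prod_nbij' (fun η l => σ (η l)) (fun η l => σ.symm (η l)) ?_ ?_ ?_ ?_ ?_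
  · exact fun η hη => sig_G h0 σ hη
  · exact fun η hη => sig_G h0 σ.symm hη
  · intro η _
    funext l
    exact σ.symm_apply_apply _
  · intro η _
    funext l
    exact σ.apply_symm_apply _
  · intro η _
    rw [map_mul, map_pow, sig_alg, map_sub, map_one, map_prod]
    congr 2
    exact Finset.prod_congr rfl fun l _ => map_zpow₀ σ _ _

lemma th_int (h0 : ∀ l, (A l).coeff 0 ≠ 0)
    (hne : ∀ l η, IsRt (A l) η → η ≠ 0) (b : ι → ℤ) : IsIntegral k[X] (th A b) := by
  unfold th
  refine IsIntegral.prod _ fun η hη => ?_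
  have hrt := ((mem_G h0 η).1 hη).1
  have hQ : IsIntegral k[X] (algebraMap k[X] (Alg k) (Q A)) := isIntegral_algebraMap
  rw [mul_sub, mul_one, ← Finset.prod_pow_eq_pow_sum, ← Finset.prod_mul_distrib]
  refine IsIntegral.sub (IsIntegral.prod _ fun l _ => ?_) (IsIntegral.prod _ fun l _ => hQ.pow _)
  have hsplit : Q A = ((A l).leadingCoeff * (A l).coeff 0) *
      ∏ j ∈ Finset.univ.erase l, ((A j).leadingCoeff * (A j).coeff 0) := by
    exact (Finset.mul_prod_erase Finset.univ (fun l => (A l).leadingCoeff * (A l).coeff 0)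
      (Finset.mem_univ l)).symm
  refine int_zpow _ _ ?_ ?_ _
  · rw [hsplit, map_mul, map_mul]
    have e : algebraMap k[X] (Alg k) (A l).leadingCoeff * algebraMap k[X] (Alg k) ((A l).coeff 0) *
        algebraMap k[X] (Alg k) (∏ j ∈ Finset.univ.erase l,
          ((A j).leadingCoeff * (A j).coeff 0)) * η l =
        (algebraMap k[X] (Alg k) (A l).leadingCoeff * η l) *
        (algebraMap k[X] (Alg k) ((A l).coeff 0) *
        algebraMap k[X] (Alg k) (∏ j ∈ Finset.univ.erase l,
          ((A j).leadingCoeff * (A j).coeff 0))) := by ring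
    rw [e]
    exact (lead_int (hrt l)).mul (isIntegral_algebraMap.mul isIntegral_algebraMap)
  · rw [hsplit, map_mul, map_mul]
    have e : algebraMap k[X] (Alg k) (A l).leadingCoeff * algebraMap k[X] (Alg k) ((A l).coeff 0) *
        algebraMap k[X] (Alg k) (∏ j ∈ Finset.univ.erase l,
          ((A j).leadingCoeff * (A j).coeff 0)) * (η l)⁻¹ =
        (algebraMap k[X] (Alg k) ((A l).coeff 0) * (η l)⁻¹) *
        (algebraMap k[X] (Alg k) (A l).leadingCoeff *
        algebraMap k[X] (Alg k) (∏ j ∈ Finset.univ.erase l,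
          ((A j).leadingCoeff * (A j).coeff 0))) := by ring
    rw [e]
    exact (const_int (h0 l) (hne l _ (hrt l)) (hrt l)).mul
      (isIntegral_algebraMap.mul isIntegral_algebraMap)

end main

/-- Relations on a curve. -/
theorem t_CURVE : S_SPEC → S_INF → S_DESC → S_EMB → S_CURVE := by
  intro hSPEC hINF hDESC hEMB k _ _ _ ι _ _ A h0
  classical
  obtain ⟨V, κ, hX, hdeg, hrt⟩ := hINF k ι A h0
  refine ⟨U A, (Q A).roots.toFinset, (G A).card * ((Q A).natDegree + κ), U_ne, ?_, ?_⟩
  · intro b hb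
    obtain ⟨P, hP⟩ := hDESC k (th A b) (th_fix h0 b) (th_int h0 (fun l η h => (hrt l η h).1) b)
    have hP0 : P ≠ 0 := by
      intro h
      apply th_ne h0 hb
      rw [← hP, h, map_zero]
    have hmono : StrictMono fun n : ℕ => V.valuation (algebraMap k[X] (Alg k) X) ^ n :=
      pow_right_strictMono₀ hX
    refine ⟨P.roots.toFinset, ?_, ?_⟩
    · refine (Multiset.toFinset_card_le _).trans ((Polynomial.card_roots' P).trans ?_)
      rw [← hmono.le_iff_le]
      rw [← hdeg P hP0, hP]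
      unfold th
      rw [map_prod]
      have hfac : ∀ η ∈ G A, V.valuation (algebraMap k[X] (Alg k) (Q A) ^ (∑ l, (b l).natAbs) *
          (∏ l, η l ^ b l - 1)) ≤ V.valuation (algebraMap k[X] (Alg k) X) ^
            (((Q A).natDegree + κ) * ∑ l, (b l).natAbs) := by
        intro η hη
        have hr := ((mem_G h0 η).1 hη).1
        rw [map_mul, map_pow, hdeg (Q A) (Q_ne h0), ← pow_mul, add_mul, pow_add]
        refine mul_le_mul' le_rfl ?_
        refine (V.valuation.map_sub _ _).trans (max_le ?_ ?_)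
        · exact val_prod_le V (fun l => (hrt l _ (hr l)).2.1) (fun l => (hrt l _ (hr l)).2.2) b
        · rw [map_one]
          exact one_le_pow_of_one_le' hX.le _
      refine (Finset.prod_le_prod' hfac).trans ?_
      rw [Finset.prod_const, ← pow_mul]
      refine le_of_eq (congrArg _ ?_)
      ring
    · intro s hs x hx hxb
      have hQs : (Q A).eval s ≠ 0 := by
        intro h
        apply hs
        rw [Multiset.mem_toFinset, Polynomial.mem_roots (Q_ne h0)]
        exact h
      unfold Q at hQs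
      rw [Polynomial.eval_prod, Finset.prod_ne_zero_iff] at hQs
      obtain ⟨V', hV1, hV2, hV3, hV4⟩ := hSPEC k ι A s
        (fun l h => hQs l (Finset.mem_univ l) (by rw [Polynomial.eval_mul, h, mul_zero]))
        (fun l h => hQs l (Finset.mem_univ l) (by rw [Polynomial.eval_mul, h, zero_mul]))
      obtain ⟨η, hη, hrel⟩ := hV4 x hx
      by_cases hbad : Bad η
      · left
        refine ⟨uu η, mem_U h0 hη hbad, ?_⟩
        rw [← hrel, (uu_spec hbad).2, sub_self, map_zero]
        exact zero_lt_one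
      · right
        rw [Multiset.mem_toFinset, Polynomial.mem_roots hP0]
        apply hV2
        rw [hP]
        unfold th
        rw [← Finset.mul_prod_erase _ _ ((mem_G h0 η).2 ⟨hη, hbad⟩), map_mul, map_mul, map_prod]
        have h1 : V'.valuation (algebraMap k[X] (Alg k) (Q A) ^ (∑ l, (b l).natAbs)) ≤ 1 := by
          rw [map_pow]
          exact pow_le_one' (hV1 _) _
        have h2 : V'.valuation (∏ l, η l ^ b l - 1) < 1 := (hrel b).2 hxb
        have h3 : ∏ η' ∈ (G A).erase η, V'.valuation (algebraMap k[X] (Alg k) (Q A) ^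
            (∑ l, (b l).natAbs) * (∏ l, η' l ^ b l - 1)) ≤ 1 := by
          refine Finset.prod_le_one' fun η' hη' => ?_
          rw [map_mul, map_pow]
          refine mul_le_one' (pow_le_one' (hV1 _) _) ?_
          refine (V'.valuation.map_sub _ _).trans (max_le ?_ (by rw [map_one]))
          rw [val_prod_one V' (fun l => hV3 l _
            (((mem_G h0 η').1 (Finset.mem_of_mem_erase hη')).1 l))]
        calc _ ≤ 1 * V'.valuation (∏ l, η l ^ b l - 1) * 1 :=
              mul_le_mul' (mul_le_mul' h1 le_rfl) h3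
          _ < 1 := by rwa [one_mul, mul_one]
  · intro L _ _ s hs x hx hb
    obtain ⟨η, hη, hrel⟩ := hEMB k ι A h0 L s hs x hx
    obtain ⟨b, hb, hxb⟩ := hb
    have hbad : Bad η := ⟨b, hb, (hrel b).2 hxb⟩
    exact ⟨uu η, mem_U h0 hη hbad, (hrel _).1 (uu_spec hbad).2⟩

end Pool.Agent.Y44.ZF
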